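import Pool.Agent.Q35.SqFree

/-!
# The square-free algebra modulo one generic form in positive characteristic

The definitions (`SqAlg`, `form`, `genIdeal`, `hilb`, `trunc`, `series`, `GenericHilbert`) are in
`Pool.Agent.Q35.SqFree`.

Proof. In characteristic `p` every form `f` of positive degree `e` of the square-free algebra
satisfies `f^p = 0`. If the formula held for `n = (2p-1)e`, then multiplication by `f` would be
injective on the components of degree `0, e, …, (p-1)e`, so `f^p ≠ 0`.
-/

namespace Pool.Agent.Results.MP_3acc10_al.PositiveCharacteristic

open Q35.SqFree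

/-- **Theorem.** Let `K` be an infinite field of characteristic `p > 0` and let `e ≥ 1` be
arbitrary. For `n = (2p-1)e` and every degree sequence with one entry `e` and all other entries
larger than `p e` (for instance for one generic form of degree `e`), the Hilbert series of the
quotient of the square-free algebra by a generic ideal is not `⟨(1+t)^n ∏ (1-t^{d_i})⟩`. -/
theorem result (K : Type*) [Field K] [Infinite K] (p : ℕ) [Fact p.Prime] [CharP K p]
    (e : ℕ) (he : 0 < e) (r : ℕ) (d : Fin r → ℕ) (j0 : Fin r) (hj0 : d j0 = e)
    (hbig : ∀ j, j ≠ j0 → p * e < d j) :
    ¬ GenericHilbert K ((2 * p - 1) * e) d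
      (trunc fun i => (series ((2 * p - 1) * e) d).coeff i) := by
  subst hj0
  exact not_generic_char p d j0 he hbig rfl

end Pool.Agent.Results.MP_3acc10_al.PositiveCharacteristic
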