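import Pool.Agent.Q35.SqFree

/-!
# The square-free algebra modulo generic forms: the formula fails over every infinite field

The definitions (`SqAlg`, `form`, `genIdeal`, `hilb`, `trunc`, `series`, `GenericHilbert`, `Q1`)
are in `Pool.Agent.Q35.SqFree`.

Proof. Let the two linear forms be `∑ a_i x_i` and `∑ a_i t_i x_i` with `a_i ≠ 0` and distinct
`t_i`. The functional sending a square-free monomial `x_S`, `|S| = k`, to
`∏_{i∈S} (w_i ∏_{j∈S, j≠i} (t_i - t_j))`, `w_i⁻¹ = a_i ∏_{j≠i} (t_i - t_j)` (up to sign these are
the coefficients of the `k × k` Hankel determinant of the points `t_i`) vanishes on the ideal by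
Lagrange interpolation as soon as `2k+1 ≤ n`, and it does not vanish on any square-free monomial
of degree `k`. So the degree `k` part of the quotient is not zero. On the other hand the
coefficient of `t^k` in `(1+t)^n (1-t)^2` is a multiple of `6-2k` for `n = 2k+1` and of `12-2k`
for `n = 2k+2`.

The idea of using the exceptional case of Alexander and Hirschowitz (cubics in `P^4` which are
singular in seven points, i.e. `n = 7`) for this problem is due to seat helper14.
-/

namespace Pool.Agent.Results.MP_3acc10_al.TwoLinearForms

open Q35.SqFree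

/-- **Theorem.** Let `K` be an infinite field.

* (1) For every `n`, `k` with `n = 2k+1`, `k ≥ 3` or `n = 2k+2`, `k ≥ 6` (so for `n = 7, 9, 11`
  and for all `n ≥ 13`), and all degree sequences two of whose entries are `1` and whose other
  entries are larger than `k` (for instance two linear forms and nothing else), the Hilbert
  series of the quotient of the square-free algebra by a generic ideal is not
  `⟨(1+t)^n ∏ (1-t^{d_i})⟩`.
* (2) So the answer to Q1 is negative over every infinite field. -/
theorem result (K : Type*) [Field K] [Infinite K] :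
    (∀ (n k r : ℕ) (d : Fin r → ℕ) (j0 j1 : Fin r),
      ((n = 2 * k + 1 ∧ 3 ≤ k) ∨ (n = 2 * k + 2 ∧ 6 ≤ k)) → j0 ≠ j1 → d j0 = 1 → d j1 = 1 →
      (∀ j, j ≠ j0 → j ≠ j1 → k < d j) →
      ¬ GenericHilbert K n d (trunc fun i => (series n d).coeff i)) ∧
    ¬ Q1 K := by
  refine ⟨?_, ?_⟩
  · intro n k r d j0 j1 h h01 hd0 hd1 hbig
    exact not_generic h d j0 j1 h01 hd0 hd1 hbig
  · intro hQ
    refine not_generic (K := K) (n := 7) (k := 3) (r := 2) (Or.inl ⟨by norm_num, le_rfl⟩)
      (fun _ => 1) 0 1 (by decide) rfl rfl ?_ (hQ 7 2 (fun _ => 1) (by norm_num) (by norm_num)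
        (fun _ => one_pos))
    intro j h0 h1
    fin_cases j
    · exact absurd rfl h0
    · exact absurd rfl h1

end Pool.Agent.Results.MP_3acc10_al.TwoLinearForms
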